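import Mathlib
import Pool.Agent.U450.SV.Stm

/-!
# Project SV (helper450), package FIN: from hypersurfaces to all closed conical subsets
-/

set_option autoImplicit false

universe u

namespace Pool.Agent.U501.SV.FIN

open Pool.Agent.U450.SV
open TensorProduct

section lin
variable {k M M' : Type u} [Field k] [AddCommGroup M] [Module k M] [AddCommGroup M'] [Module k M']

theorem exists_homotopy (X : Module.End k M) (hX : LinearMap.ker X = LinearMap.range X) :
    ∃ h : Module.End k M, X * h + h * X = 1 := by
  obtain ⟨s, hs⟩ := X.rangeRestrict.exists_rightInverse_of_surjective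
    (LinearMap.range_rangeRestrict X)
  have hs' : ∀ y : LinearMap.range X, X (s y) = y := by
    intro y
    have := congrArg (fun f => ((f y : LinearMap.range X) : M)) hs
    simpa using this
  have hXX : ∀ v, X (X v) = 0 := fun v => by
    have : X v ∈ LinearMap.ker X := by rw [hX]; exact ⟨v, rfl⟩
    exact this
  let P : M →ₗ[k] LinearMap.range X :=
    (LinearMap.id - s ∘ₗ X.rangeRestrict).codRestrict _ (fun v => by
      refine hX.le ?_
      rw [LinearMap.mem_ker]
      simp [hs'])
  have hP : ∀ v, ((P v : LinearMap.range X) : M) = v - s (X.rangeRestrict v) := fun v => rfl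
  refine ⟨s ∘ₗ P, ?_⟩
  ext v
  have h1 : P (X v) = X.rangeRestrict v := by
    apply Subtype.ext
    rw [hP]
    have : X.rangeRestrict (X v) = 0 := by
      apply Subtype.ext
      simpa using hXX v
    rw [this]
    simp
  simp only [LinearMap.add_apply, Module.End.mul_apply, LinearMap.comp_apply, hs', hP, h1,
    Module.End.one_apply]
  abel

theorem ker_eq_range_of_homotopy (D H : Module.End k M) (hD : D * D = 0) (h : D * H + H * D = 1) :
    LinearMap.ker D = LinearMap.range D := by
  apply le_antisymm
  · intro v hv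
    refine ⟨H v, ?_⟩
    have := LinearMap.congr_fun h v
    simp only [LinearMap.add_apply, Module.End.mul_apply, Module.End.one_apply] at this
    rw [LinearMap.mem_ker.mp hv, map_zero, add_zero] at this
    exact this
  · rintro _ ⟨v, rfl⟩
    exact LinearMap.congr_fun hD v

theorem exists_odd_homotopy (h2 : (2 : k) ≠ 0) (σ X : Module.End k M) (hσ : σ * σ = 1)
    (hσX : σ * X = -(X * σ)) (hX : LinearMap.ker X = LinearMap.range X) :
    ∃ h : Module.End k M, X * h + h * X = 1 ∧ σ * h + h * σ = 0 := by
  obtain ⟨h, hh⟩ := exists_homotopy X hX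
  refine ⟨(2⁻¹ : k) • (h - σ * h * σ), ?_, ?_⟩
  · have h1 : X * (h - σ * h * σ) + (h - σ * h * σ) * X = 1 + 1 := by
      have e1 : X * (σ * h * σ) = -(σ * (X * h) * σ) := by
        have : X * σ = -(σ * X) := by rw [hσX, neg_neg]
        calc X * (σ * h * σ) = (X * σ) * h * σ := by noncomm_ring
          _ = -(σ * (X * h) * σ) := by rw [this]; noncomm_ring
      have e2 : (σ * h * σ) * X = -(σ * (h * X) * σ) := by
        calc (σ * h * σ) * X = σ * h * (σ * X) := by noncomm_ring
          _ = -(σ * (h * X) * σ) := by rw [hσX]; noncomm_ring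
      calc X * (h - σ * h * σ) + (h - σ * h * σ) * X
          = (X * h + h * X) - (X * (σ * h * σ) + (σ * h * σ) * X) := by noncomm_ring
        _ = (X * h + h * X) + σ * (X * h + h * X) * σ := by rw [e1, e2]; noncomm_ring
        _ = 1 + 1 := by rw [hh, mul_one, hσ]
    rw [mul_smul_comm, smul_mul_assoc, ← smul_add, h1, ← two_smul k (1 : Module.End k M), smul_smul,
      inv_mul_cancel₀ h2, one_smul]
  · have h1 : σ * (h - σ * h * σ) + (h - σ * h * σ) * σ = 0 := by
      calc σ * (h - σ * h * σ) + (h - σ * h * σ) * σ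
          = σ * h - (σ * σ) * h * σ + h * σ - σ * h * (σ * σ) := by noncomm_ring
        _ = 0 := by rw [hσ]; noncomm_ring
    rw [mul_smul_comm, smul_mul_assoc, ← smul_add, h1, smul_zero]

/-- The tensor differential. -/
theorem ker_eq_range_tensor (h2 : (2 : k) ≠ 0) (σ X : Module.End k M) (hσ : σ * σ = 1)
    (hσX : σ * X = -(X * σ)) (hXX : X * X = 0)
    (X' : Module.End k M') (hXX' : X' * X' = 0)
    (D : Module.End k (M ⊗[k] M')) (hD : D = map X 1 + map σ X') :
    LinearMap.ker D = LinearMap.range D ↔
      (LinearMap.ker X = LinearMap.range X ∨ LinearMap.ker X' = LinearMap.range X') := by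
  have hDD : D * D = 0 := by
    rw [hD, add_mul, mul_add, mul_add, ← TensorProduct.map_mul, ← TensorProduct.map_mul,
      ← TensorProduct.map_mul, ← TensorProduct.map_mul, hXX, hXX', mul_one, mul_one, one_mul]
    have e2 : map (X * σ) X' + map (σ * X) X' = 0 := by
      rw [← TensorProduct.map_add_left, hσX]
      simp
    rw [TensorProduct.map_zero_left, TensorProduct.map_zero_right, zero_add, add_zero, e2]
  constructor
  · intro h
    by_contra hcon
    push Not at hcon
    obtain ⟨h1, h1'⟩ := hcon
    have key : ∀ {N : Type u} [AddCommGroup N] [Module k N] (Y : Module.End k N), Y * Y = 0 →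
        LinearMap.ker Y ≠ LinearMap.range Y →
        ∃ (n : N) (l : N →ₗ[k] k), Y n = 0 ∧ (∀ v, l (Y v) = 0) ∧ l n ≠ 0 := by
      intro N _ _ Y hY hne
      have hle : LinearMap.range Y ≤ LinearMap.ker Y := by
        rintro _ ⟨v, rfl⟩
        exact LinearMap.congr_fun hY v
      have : ¬ (LinearMap.ker Y ≤ LinearMap.range Y) := fun h => hne (le_antisymm h hle)
      obtain ⟨n, hn, hn'⟩ := SetLike.not_le_iff_exists.mp this
      obtain ⟨l, hl1, hl2⟩ := Submodule.exists_le_ker_of_notMem hn'
      exact ⟨n, l, hn, fun v => hl2 ⟨v, rfl⟩, hl1⟩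
    obtain ⟨n, l, hn, hl, hln⟩ := key X hXX h1
    obtain ⟨n', l', hn', hl', hln'⟩ := key X' hXX' h1'
    have hmem : n ⊗ₜ[k] n' ∈ LinearMap.ker D := by
      rw [LinearMap.mem_ker, hD]
      simp [hn, hn']
    rw [h] at hmem
    obtain ⟨w, hw⟩ := hmem
    have hzero : (LinearMap.mul' k k ∘ₗ map l l') ∘ₗ D = 0 := by
      apply TensorProduct.ext'
      intro v v'
      rw [hD]
      simp [hl, hl']
    have := LinearMap.congr_fun hzero w
    rw [LinearMap.comp_apply, hw] at this
    simp at this
    rcases this with h | h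
    · exact hln h
    · exact hln' h
  · rintro (h | h)
    · obtain ⟨H, hH1, hH2⟩ := exists_odd_homotopy h2 σ X hσ hσX h
      apply ker_eq_range_of_homotopy D (map H 1) hDD
      rw [hD, add_mul, mul_add, ← TensorProduct.map_mul, ← TensorProduct.map_mul,
        ← TensorProduct.map_mul, ← TensorProduct.map_mul, mul_one, one_mul, mul_one]
      have e1 : map (X * H) (1 : Module.End k M') + map (H * X) 1 = 1 := by
        rw [← TensorProduct.map_add_left, hH1]
        exact TensorProduct.map_one
      have e2 : map (σ * H) X' + map (H * σ) X' = 0 := by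
        rw [← TensorProduct.map_add_left, hH2]
        simp
      calc map (X * H) (1 : Module.End k M') + map (σ * H) X' +
            (map (H * X) 1 + map (H * σ) X')
          = (map (X * H) (1 : Module.End k M') + map (H * X) 1) +
            (map (σ * H) X' + map (H * σ) X') := by abel
        _ = 1 := by rw [e1, e2, add_zero]
    · obtain ⟨H, hH⟩ := exists_homotopy X' h
      apply ker_eq_range_of_homotopy D (map σ H) hDD
      rw [hD, add_mul, mul_add, ← TensorProduct.map_mul, ← TensorProduct.map_mul,
        ← TensorProduct.map_mul, ← TensorProduct.map_mul, mul_one, one_mul, hσ]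
      have e1 : map (1 : Module.End k M) (X' * H) + map 1 (H * X') = 1 := by
        rw [← TensorProduct.map_add_right, hH]
        exact TensorProduct.map_one
      have e2 : map (X * σ) H + map (σ * X) H = 0 := by
        rw [← TensorProduct.map_add_left, hσX]
        simp
      calc map (X * σ) H + map (1 : Module.End k M) (X' * H) +
            (map (σ * X) H + map 1 (H * X'))
          = (map (1 : Module.End k M) (X' * H) + map 1 (H * X')) +
            (map (X * σ) H + map (σ * X) H) := by abel
        _ = 1 := by rw [e1, e2, add_zero]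

end lin

section tens
variable {k g0 g1 : Type u} [Field k] [AddCommGroup g0] [Module k g0]
  [AddCommGroup g1] [Module k g1] {L : LieSuper k g0 g1}
  {M M' : Type u} [AddCommGroup M] [Module k M] [AddCommGroup M'] [Module k M']

theorem map_sub_left' (A B : Module.End k M) (C : Module.End k M') :
    map (A - B) C = map A C - map B C := by
  rw [eq_sub_iff_add_eq, ← TensorProduct.map_add_left, sub_add_cancel]

theorem map_sub_right' (A B : Module.End k M') (C : Module.End k M) :
    map C (A - B) = map C A - map C B := by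
  rw [eq_sub_iff_add_eq, ← TensorProduct.map_add_right, sub_add_cancel]

theorem map_neg_left' (A : Module.End k M) (C : Module.End k M') :
    map (-A) C = -map A C := by
  rw [eq_neg_iff_add_eq_zero, ← TensorProduct.map_add_left]
  simp

theorem map_neg_right' (A : Module.End k M') (C : Module.End k M) :
    map C (-A) = -map C A := by
  rw [eq_neg_iff_add_eq_zero, ← TensorProduct.map_add_right]
  simp

/-- The tensor product of two supermodules. -/
noncomputable def tensor (ρ : SMod L M) (ρ' : SMod L M') : SMod L (M ⊗[k] M') where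
  σ := map ρ.σ ρ'.σ
  r0 := (TensorProduct.mapBilinear (.id k) M M' M M').flip 1 ∘ₗ ρ.r0 +
    TensorProduct.mapBilinear (.id k) M M' M M' 1 ∘ₗ ρ'.r0
  r1 := (TensorProduct.mapBilinear (.id k) M M' M M').flip 1 ∘ₗ ρ.r1 +
    TensorProduct.mapBilinear (.id k) M M' M M' ρ.σ ∘ₗ ρ'.r1
  σσ := by
    rw [← TensorProduct.map_mul, ρ.σσ, ρ'.σσ]
    exact TensorProduct.map_one
  σ0 a := by
    simp only [LinearMap.add_apply, LinearMap.comp_apply, LinearMap.flip_apply,
      TensorProduct.mapBilinear_apply, mul_add, add_mul, ← TensorProduct.map_mul, one_mul, mul_one,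
      ρ.σ0, ρ'.σ0]
  σ1 x := by
    simp only [LinearMap.add_apply, LinearMap.comp_apply, LinearMap.flip_apply,
      TensorProduct.mapBilinear_apply, mul_add, add_mul, ← TensorProduct.map_mul, one_mul, mul_one,
      ρ.σ1, ρ'.σ1, map_neg_left', map_neg_right', neg_add]
  h00 a b := by
    simp only [LinearMap.add_apply, LinearMap.comp_apply, LinearMap.flip_apply,
      TensorProduct.mapBilinear_apply, mul_add, add_mul, ← TensorProduct.map_mul, one_mul, mul_one,
      ρ.h00, ρ'.h00, map_sub_left', map_sub_right']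
    abel
  h01 a x := by
    simp only [LinearMap.add_apply, LinearMap.comp_apply, LinearMap.flip_apply,
      TensorProduct.mapBilinear_apply, mul_add, add_mul, ← TensorProduct.map_mul, one_mul, mul_one,
      ρ.h01, ρ'.h01, map_sub_left', map_sub_right', ρ.σ0]
    abel
  h11 x y := by
    simp only [LinearMap.add_apply, LinearMap.comp_apply, LinearMap.flip_apply,
      TensorProduct.mapBilinear_apply, mul_add, add_mul, ← TensorProduct.map_mul, one_mul, mul_one,
      ρ.h11, ρ'.h11, TensorProduct.map_add_left, TensorProduct.map_add_right, ρ.σ1, ρ.σσ,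
      map_neg_left']
    abel

theorem sq_zero (h2 : (2 : k) ≠ 0) (ρ : SMod L M) (x : g1) (hx : L.b11 x x = 0) :
    ρ.r1 x * ρ.r1 x = 0 := by
  have h := ρ.h11 x x
  rw [hx, map_zero, ← two_smul k] at h
  rcases smul_eq_zero.mp h.symm with h | h
  · exact absurd h h2
  · exact h

theorem tensor_acyclic (h2 : (2 : k) ≠ 0) (ρ : SMod L M) (ρ' : SMod L M') (x : g1)
    (hx : L.b11 x x = 0) :
    LinearMap.ker ((tensor ρ ρ').r1 x) = LinearMap.range ((tensor ρ ρ').r1 x) ↔
      (LinearMap.ker (ρ.r1 x) = LinearMap.range (ρ.r1 x) ∨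
        LinearMap.ker (ρ'.r1 x) = LinearMap.range (ρ'.r1 x)) :=
  ker_eq_range_tensor h2 ρ.σ (ρ.r1 x) ρ.σσ (ρ.σ1 x) (sq_zero h2 ρ x hx) (ρ'.r1 x)
    (sq_zero h2 ρ' x hx) _ rfl

/-- The trivial supermodule. -/
noncomputable def trivialMod (L : LieSuper k g0 g1) : SMod L k where
  σ := 1
  r0 := 0
  r1 := 0
  σσ := one_mul _
  σ0 _ := by simp
  σ1 _ := by simp
  h00 _ _ := by simp
  h01 _ _ := by simp
  h11 _ _ := by simp

end tens

theorem eval_smul_homog {k : Type u} [Field k] {m : ℕ} (f : MvPolynomial (Fin m) k) (e : ℕ)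
    (hf : f.IsHomogeneous e) (t : k) (v : Fin m → k) :
    MvPolynomial.eval (fun i => t * v i) f = t ^ e * MvPolynomial.eval v f := by
  rw [MvPolynomial.eval_eq, MvPolynomial.eval_eq, Finset.mul_sum]
  refine Finset.sum_congr rfl fun d hd => ?_
  have h1 : ∑ i ∈ d.support, d i = e := (hf.degree_eq_sum_deg_support hd).symm ▸ rfl
  have h2 : ∏ i ∈ d.support, (t * v i) ^ d i = t ^ e * ∏ i ∈ d.support, v i ^ d i := by
    rw [← h1, ← Finset.prod_pow_eq_pow_sum, ← Finset.prod_mul_distrib]
    exact Finset.prod_congr rfl fun i _ => mul_pow _ _ _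
  rw [h2]
  ring

theorem eval_components {k : Type u} [Field k] [Infinite k] {m : ℕ} (f : MvPolynomial (Fin m) k)
    (v : Fin m → k) (h : ∀ t : k, MvPolynomial.eval (fun i => t * v i) f = 0) (d : ℕ) :
    MvPolynomial.eval v (MvPolynomial.homogeneousComponent d f) = 0 := by
  classical
  set Q : Polynomial k := ∑ d ∈ Finset.range (f.totalDegree + 1),
    Polynomial.C (MvPolynomial.eval v (MvPolynomial.homogeneousComponent d f)) * Polynomial.X ^ d
    with hQ
  have hQ0 : Q = 0 := by
    apply Polynomial.funext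
    intro t
    rw [Polynomial.eval_zero, hQ, Polynomial.eval_finsetSum]
    have h1 := h t
    conv_lhs at h1 => rw [← MvPolynomial.sum_homogeneousComponent f]
    rw [map_sum] at h1
    rw [← h1]
    refine Finset.sum_congr rfl fun d _ => ?_
    rw [eval_smul_homog _ d (MvPolynomial.homogeneousComponent_isHomogeneous d f)]
    rw [Polynomial.eval_mul, Polynomial.eval_C, Polynomial.eval_pow, Polynomial.eval_X]
    exact mul_comm _ _
  by_cases hd : d < f.totalDegree + 1
  · have h1 : Q.coeff d = 0 := by rw [hQ0]; simp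
    rw [hQ, Polynomial.finsetSum_coeff] at h1
    simp only [Polynomial.coeff_C_mul, Polynomial.coeff_X_pow] at h1
    simpa [hd] using h1
  · rw [MvPolynomial.homogeneousComponent_eq_zero d f (by omega)]
    simp

theorem exists_list (hyp : S_HYP.{u}) (k g0 g1 : Type u) [Field k] [Infinite k] [AddCommGroup g0]
    [Module k g0] [AddCommGroup g1] [Module k g1] (p : ℕ) [Fact p.Prime] [CharP k p] (hp : 3 ≤ p)
    (h2 : (2 : k) ≠ 0) (L : LieSuper k g0 g1) (m : ℕ) (y : Module.Basis (Fin m) k g1)
    (l : List (MvPolynomial (Fin m) k)) (hl : ∀ f ∈ l, ∃ e, 1 ≤ e ∧ f.IsHomogeneous e) :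
    ∃ (M : Type u) (_ : AddCommGroup M) (_ : Module k M) (_ : Module.Finite k M) (ρ : SMod L M),
      ∀ x : g1, L.b11 x x = 0 → x ≠ 0 →
        (LinearMap.ker (ρ.r1 x) = LinearMap.range (ρ.r1 x) ↔
          ∃ f ∈ l, MvPolynomial.eval (fun i => y.repr x i) f ≠ 0) := by
  induction l with
  | nil =>
    refine ⟨k, inferInstance, inferInstance, inferInstance, trivialMod L, fun x _ _ => ?_⟩
    constructor
    · intro h
      exfalso
      have h1 : (1 : k) ∈ LinearMap.ker ((trivialMod L).r1 x) := by
        rw [LinearMap.mem_ker]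
        rfl
      rw [h] at h1
      obtain ⟨v, hv⟩ := h1
      have : (0 : k) = 1 := hv
      exact zero_ne_one this
    · rintro ⟨f, hf, _⟩
      simp at hf
  | cons f l ih =>
    obtain ⟨M, i1, i2, i3, ρ, hρ⟩ := ih (fun f hf => hl f (List.mem_cons_of_mem _ hf))
    obtain ⟨e, he, hfe⟩ := hl f List.mem_cons_self
    obtain ⟨M', i1', i2', i3', ρ', hρ'⟩ := hyp k g0 g1 p hp L m y e he f hfe
    refine ⟨M' ⊗[k] M, inferInstance, inferInstance, inferInstance, tensor ρ' ρ,
      fun x hx hx0 => ?_⟩
    rw [tensor_acyclic h2 ρ' ρ x hx, hρ x hx hx0, hρ' x hx hx0]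
    simp

/-- Project SV, package FIN. -/
theorem t_FIN : S_HYP.{u} → S_FIN.{u} := by
  intro hyp k g0 g1 _ _ _ _ _ _ _ _ p _ _ hp L W hW
  classical
  have : Infinite k := IsAlgClosed.instInfinite
  have h2 : (2 : k) ≠ 0 := by
    intro h
    have h' : ((2 : ℕ) : k) = 0 := by exact_mod_cast h
    have := (CharP.cast_eq_zero_iff k p 2).mp h'
    have := Nat.le_of_dvd (by norm_num) this
    omega
  obtain ⟨⟨m, y, S, hS⟩, h0, hc⟩ := hW
  -- the vanishing ideal
  let I : Ideal (MvPolynomial (Fin m) k) :=
    { carrier := {P | ∀ x ∈ W, MvPolynomial.eval (fun i => y.repr x i) P = 0}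
      add_mem' := by
        intro P Q hP hQ x hx
        rw [map_add, hP x hx, hQ x hx, add_zero]
      zero_mem' := by
        intro x _
        simp
      smul_mem' := by
        intro P Q hQ x hx
        rw [smul_eq_mul, map_mul, hQ x hx, mul_zero] }
  have hI : ∀ P, P ∈ I ↔ ∀ x ∈ W, MvPolynomial.eval (fun i => y.repr x i) P = 0 := fun P => Iff.rfl
  obtain ⟨G, hG⟩ := (isNoetherianRing_iff_ideal_fg (MvPolynomial (Fin m) k)).mp inferInstance I
  -- components vanish on `W`
  have hcomp : ∀ P ∈ I, ∀ d, ∀ x ∈ W, MvPolynomial.eval (fun i => y.repr x i)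
      (MvPolynomial.homogeneousComponent d P) = 0 := by
    intro P hP d x hx
    apply eval_components P _ _ d
    intro t
    have := (hI P).mp hP (t • x) (hc t x hx)
    simpa using this
  let l : List (MvPolynomial (Fin m) k) :=
    (G.toList.map (fun P => (List.range P.totalDegree).map
      (fun d => MvPolynomial.homogeneousComponent (d + 1) P))).flatten
  have hl : ∀ f, f ∈ l ↔ ∃ P ∈ G, ∃ d < P.totalDegree,
      MvPolynomial.homogeneousComponent (d + 1) P = f := by
    intro f
    simp [l]
  have hlhom : ∀ f ∈ l, ∃ e, 1 ≤ e ∧ f.IsHomogeneous e := by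
    intro f hf
    obtain ⟨P, _, d, _, rfl⟩ := (hl f).mp hf
    exact ⟨d + 1, by omega, MvPolynomial.homogeneousComponent_isHomogeneous _ _⟩
  obtain ⟨M, i1, i2, i3, ρ, hρ⟩ := exists_list hyp k g0 g1 p hp h2 L m y l hlhom
  refine ⟨M, i1, i2, i3, ρ, ?_⟩
  have hchar : ∀ x, L.b11 x x = 0 → (x ∈ W ↔ ∀ f ∈ l,
      MvPolynomial.eval (fun i => y.repr x i) f = 0) := by
    intro x hx
    constructor
    · intro hxW f hf
      obtain ⟨P, hP, d, _, rfl⟩ := (hl f).mp hf
      exact hcomp P (hG ▸ Ideal.subset_span hP) (d + 1) x hxW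
    · intro h
      have hGx : ∀ P ∈ G, MvPolynomial.eval (fun i => y.repr x i) P = 0 := by
        intro P hP
        have hPI : P ∈ I := hG ▸ Ideal.subset_span hP
        conv_lhs => rw [← MvPolynomial.sum_homogeneousComponent P]
        rw [map_sum]
        apply Finset.sum_eq_zero
        intro d hd
        rcases Nat.eq_zero_or_pos d with rfl | hd0
        · have h00 := hcomp P hPI 0 0 h0
          rw [MvPolynomial.homogeneousComponent_zero] at h00 ⊢
          simpa using h00
        · obtain ⟨d', rfl⟩ : ∃ d', d = d' + 1 := ⟨d - 1, by omega⟩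
          refine h _ ((hl _).mpr ⟨P, hP, d', ?_, rfl⟩)
          have := Finset.mem_range.mp hd
          omega
      have hIx : ∀ P ∈ I, MvPolynomial.eval (fun i => y.repr x i) P = 0 := by
        intro P hP
        have : I ≤ RingHom.ker (MvPolynomial.eval (fun i => y.repr x i)) := by
          rw [← hG, Ideal.span_le]
          intro Q hQ
          exact hGx Q hQ
        exact this hP
      rw [hS]
      refine ⟨hx, fun P hP => hIx P ?_⟩
      rw [hI]
      intro z hz
      rw [hS] at hz
      exact hz.2 P hP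
  ext x
  constructor
  · rintro ⟨hx, hx'⟩
    by_cases hx0 : x = 0
    · rw [hx0]; exact h0
    · rcases hx' with h | h
      · exact absurd h hx0
      · rw [hchar x hx]
        by_contra hcon
        push Not at hcon
        obtain ⟨f, hf, hne⟩ := hcon
        exact h ((hρ x hx hx0).mpr ⟨f, hf, hne⟩)
  · intro hxW
    have hx : L.b11 x x = 0 := by
      rw [hS] at hxW
      exact hxW.1
    refine ⟨hx, ?_⟩
    by_cases hx0 : x = 0
    · exact Or.inl hx0
    · right
      intro h
      obtain ⟨f, hf, hne⟩ := (hρ x hx hx0).mp h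
      exact hne ((hchar x hx).mp hxW f hf)

end Pool.Agent.U501.SV.FIN
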